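import Pool.Agent.H469.F4.HPB

set_option autoImplicit false

/-!
# MP_abec59_nt. The second moment of the measure of the high points of zeta in windows of length one

Write `L = log T`. For a probability measure `μ` concentrated on a window `[a, a + 1]`, `|a| ≤ T/4`, let
`X(t) = μ {h : |ζ(1/2 + i(t + h))| > L^v}` be the measure of the high points of level `v` in the window `t + [a, a + 1]`.
Suppose that `μ` is regular of dimension `s`, `0 < s ≤ 1`, at the scales between `1/L` and `1` (for example Lebesgue measure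
on `[0, 1]`, `s = 1`). Unconditionally, and uniformly in `μ` (which may depend on `T`) and in `v`, the mean of `X(t)²`
over `T ≤ t ≤ 2T` is at least `L^(-m) exp(-G √(log log T))` for `0 ≤ v ≤ A` and at most `G (log log T) L^(-m)` for
`0 ≤ v ≤ 1`, where

* `m = 2 v²` for `v ≤ √(s/2)` (pairs of high points at distances of order 1 dominate);
* `m = 2 √(2s) v - s` for `√(s/2) < v ≤ √(2s)` (pairs at the distance `L^(1 - v √(2/s))`);
* `m = s + v²` for `v > √(2s)` (pairs at the distance `1/L`).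
-/

open Filter Topology MeasureTheory
open scoped ENNReal

namespace Pool.Agent.Results.MP_abec59_nt.HighPointsSecondMoment

/-- `(1/T) ∫_T^(2T) μ {h : |ζ(1/2 + i(t + h))| > V} ^ 2 dt`, in `[0, ∞]`. -/
noncomputable def highSquare (μ : Measure ℝ) (V T : ℝ) : ℝ≥0∞ :=
  ENNReal.ofReal (1 / T) * ∫⁻ t in Set.Icc T (2 * T), μ {h : ℝ | V < ‖riemannZeta (1 / 2 + ((t + h : ℝ) : ℂ) * Complex.I)‖} ^ 2

/-- `μ` is a probability measure concentrated on a subset `E` of `[a, a + 1]`, and `c ρ^s ≤ μ [x - ρ, x + ρ] ≤ C ρ^s` for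
`x ∈ E`, `r ≤ ρ ≤ 1`. -/
def Regular (s c C r a : ℝ) (μ : Measure ℝ) : Prop := IsProbabilityMeasure μ ∧ ∃ E : Set ℝ, μ Eᶜ = 0 ∧ E ⊆ Set.Icc a (a + 1) ∧
  ∀ x ∈ E, ∀ ρ : ℝ, r ≤ ρ → ρ ≤ 1 →
    ENNReal.ofReal (c * ρ ^ s) ≤ μ (Set.Icc (x - ρ) (x + ρ)) ∧ μ (Set.Icc (x - ρ) (x + ρ)) ≤ ENNReal.ofReal (C * ρ ^ s)

/-- The exponent. -/
noncomputable def exponent (s v : ℝ) : ℝ :=
  if 2 * v ^ 2 ≤ s then 2 * v ^ 2 else if v ^ 2 ≤ 2 * s then 2 * Real.sqrt (2 * s) * v - s else s + v ^ 2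

/-- Lebesgue measure on `[0, 1]`. -/
noncomputable def unit : Measure ℝ := volume.restrict (Set.Icc 0 1)

lemma unit_regular {r : ℝ} (hr : 0 < r) : Regular 1 1 2 r 0 unit := by
  refine ⟨⟨by simp [unit]⟩, Set.Icc 0 1, ?_, ?_, ?_⟩
  · unfold unit
    rw [Measure.restrict_apply measurableSet_Icc.compl, Set.compl_inter_self, measure_empty]
  · rw [zero_add]
  · intro x hx ρ hρ hρ1
    have hρ0 : 0 < ρ := lt_of_lt_of_le hr hρ
    unfold unit
    rw [Measure.restrict_apply measurableSet_Icc, Real.rpow_one, one_mul, Set.Icc_inter_Icc, Real.volume_Icc]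
    constructor
    · apply ENNReal.ofReal_le_ofReal
      rcases le_total (x - ρ) 0 with h | h <;> rcases le_total (x + ρ) 1 with h' | h'
      · rw [sup_eq_right.2 h, inf_eq_left.2 h']
        linarith [hx.1]
      · rw [sup_eq_right.2 h, inf_eq_right.2 h']
        linarith
      · rw [sup_eq_left.2 h, inf_eq_left.2 h']
        linarith
      · rw [sup_eq_left.2 h, inf_eq_right.2 h']
        linarith [hx.2]
    · apply ENNReal.ofReal_le_ofReal
      have h2 : x - ρ ≤ (x - ρ) ⊔ 0 := le_sup_left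
      have h3 : (x + ρ) ⊓ 1 ≤ x + ρ := inf_le_left
      linarith

theorem result :
    (∀ s c C A : ℝ, 0 < s → s ≤ 1 → 0 < c → 0 < C → 0 ≤ A → ∃ G : ℝ, 0 < G ∧ ∀ᶠ T : ℝ in atTop,
      ∀ (μ : Measure ℝ) (a : ℝ), |a| ≤ T / 4 → Regular s c C (1 / Real.log T) a μ →
      (∀ v : ℝ, 0 ≤ v → v ≤ A → ENNReal.ofReal (Real.log T ^ (-exponent s v) * Real.exp (-(G * Real.sqrt (Real.log (Real.log T))))) ≤
        highSquare μ (Real.log T ^ v) T) ∧
      (∀ v : ℝ, 0 ≤ v → v ≤ 1 → highSquare μ (Real.log T ^ v) T ≤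
        ENNReal.ofReal (G * Real.log (Real.log T) * Real.log T ^ (-exponent s v)))) ∧
    (∀ r : ℝ, 0 < r → Regular 1 1 2 r 0 unit) := by
  refine ⟨?_, fun r hr => unit_regular hr⟩
  intro s c C A hs0 hs1 hc hC hA
  obtain ⟨G, hG, h⟩ := Pool.Agent.H469.F4.hi_main hs0 hs1 hc hC hA
  refine ⟨G, hG, ?_⟩
  filter_upwards [h] with T h μ a ha hreg
  have hreg' : Pool.Agent.H469.F4.RegM s c C (1 / Real.log T) a μ := by
    obtain ⟨E, h1, h2, h3⟩ := hreg.2
    refine ⟨E, h1, h2, fun x hx ρ hρ hρ1 => ?_⟩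
    rw [Real.closedBall_eq_Icc]
    exact h3 x hx ρ hρ hρ1
  exact ⟨fun v hv hvA => (h μ a hreg.1 ha hreg' v hv).1 hvA, fun v hv hv1 => (h μ a hreg.1 ha hreg' v hv).2 hv1⟩

end Pool.Agent.Results.MP_abec59_nt.HighPointsSecondMoment
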